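import Mathlib

/-!
Modules over the rational incidence algebra of a finite poset: the modules of functions supported on
a down-set.
-/

open Finset

set_option linter.unusedSectionVars false

namespace H68IC

section Alg

variable {P : Type} [PartialOrder P] [LocallyFiniteOrder P] [DecidableEq P] [Fintype P]

variable {𝕜 : Type} [Field 𝕜]

/-- the incidence algebra -/
abbrev IA (𝕜 : Type) [Field 𝕜] (P : Type) [PartialOrder P] : Type := IncidenceAlgebra 𝕜 P

theorem ia_mul_apply (a b : IA 𝕜 P) (u v : P) : (a * b) u v = ∑ w, a u w * b w v := by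
  rw [IncidenceAlgebra.mul_apply]
  refine Finset.sum_subset (Finset.subset_univ _) ?_
  intro w _ hw
  rw [Finset.mem_Icc, not_and_or] at hw
  rcases hw with hw | hw
  · rw [IncidenceAlgebra.apply_eq_zero_of_not_le hw, zero_mul]
  · rw [IncidenceAlgebra.apply_eq_zero_of_not_le hw, mul_zero]

variable (𝕜) in
open Classical in
/-- the basis element `(x ≤ y)` (zero if `x ≤ y` does not hold) -/
noncomputable def E (x y : P) : IA 𝕜 P :=
  ⟨fun a b => if a = x ∧ b = y ∧ x ≤ y then 1 else 0, fun a b hab => by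
    rw [if_neg]
    rintro ⟨rfl, rfl, h⟩
    exact hab h⟩

open Classical in
theorem E_apply (x y a b : P) : E 𝕜 x y a b = if a = x ∧ b = y ∧ x ≤ y then 1 else 0 := rfl

theorem ia_smul_apply (c : 𝕜) (a : IA 𝕜 P) (u v : P) : (c • a) u v = c * a u v := rfl

theorem ia_sum_apply {ι : Type} (s : Finset ι) (f : ι → IA 𝕜 P) (u v : P) :
    (∑ i ∈ s, f i) u v = ∑ i ∈ s, f i u v := by
  classical
  induction s using Finset.induction with
  | empty => rfl
  | insert i s hi ih => rw [Finset.sum_insert hi, Finset.sum_insert hi, ← ih]; rfl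

theorem mul_E (a : IA 𝕜 P) (z x : P) (hzx : z ≤ x) : a * E 𝕜 z x = ∑ y, a y z • E 𝕜 y x := by
  apply DFunLike.ext
  intro u
  funext v
  rw [ia_mul_apply, ia_sum_apply, Finset.sum_eq_single z]
  · rw [Finset.sum_eq_single u]
    · rw [ia_smul_apply, E_apply, E_apply]
      by_cases h1 : u ≤ z
      · have h2 : u ≤ x := h1.trans hzx
        by_cases h3 : v = x
        · rw [if_pos ⟨rfl, h3, hzx⟩, if_pos ⟨rfl, h3, h2⟩]
        · rw [if_neg (fun h => h3 h.2.1), if_neg (fun h => h3 h.2.1)]
      · rw [IncidenceAlgebra.apply_eq_zero_of_not_le h1, zero_mul, zero_mul]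
    · intro y _ hy
      rw [ia_smul_apply, E_apply, if_neg (fun h => hy h.1.symm), mul_zero]
    · intro h
      exact absurd (Finset.mem_univ _) h
  · intro w _ hw
    rw [E_apply, if_neg (fun h => hw h.1), mul_zero]
  · intro h
    exact absurd (Finset.mem_univ _) h

theorem E_mul_E_self (x : P) : E 𝕜 x x * E 𝕜 x x = E 𝕜 x x := by
  rw [mul_E _ _ _ le_rfl, Finset.sum_eq_single x]
  · rw [E_apply, if_pos ⟨rfl, rfl, le_rfl⟩, one_smul]
  · intro y _ hy
    rw [E_apply, if_neg (fun h => hy h.1), zero_smul]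
  · intro h
    exact absurd (Finset.mem_univ _) h

theorem E_mul_E_ne (x y : P) (h : y ≠ x) : E 𝕜 y y * E 𝕜 x x = 0 := by
  rw [mul_E _ _ _ le_rfl]
  refine Finset.sum_eq_zero fun z _ => ?_
  rw [E_apply, if_neg (fun h' => h h'.2.1.symm), zero_smul]

theorem one_eq_sum : (1 : IA 𝕜 P) = ∑ x, E 𝕜 x x := by
  apply DFunLike.ext
  intro u
  funext v
  rw [ia_sum_apply, IncidenceAlgebra.one_apply, Finset.sum_eq_single u]
  · rw [E_apply]
    by_cases h : u = v
    · rw [if_pos h, if_pos ⟨rfl, h.symm, le_rfl⟩]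
    · rw [if_neg h, if_neg (fun h' => h h'.2.1.symm)]
  · intro y _ hy
    rw [E_apply, if_neg (fun h => hy h.1.symm)]
  · intro h
    exact absurd (Finset.mem_univ _) h

theorem E_mul_mul_E (x : P) (a : IA 𝕜 P) : E 𝕜 x x * (a * E 𝕜 x x) = a x x • E 𝕜 x x := by
  rw [mul_E _ _ _ le_rfl, Finset.mul_sum, Finset.sum_eq_single x]
  · rw [mul_smul_comm, E_mul_E_self]
  · intro y _ hy
    by_cases h : y ≤ x
    · rw [mul_smul_comm, mul_E _ _ _ h]
      rw [Finset.sum_eq_zero, smul_zero]
      intro w _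
      rw [E_apply, if_neg (fun h => hy h.2.1), zero_smul]
    · rw [IncidenceAlgebra.apply_eq_zero_of_not_le h, zero_smul, mul_zero]
  · intro h
    exact absurd (Finset.mem_univ _) h

end Alg

section FW

variable {𝕜 : Type} [Field 𝕜]
variable (P : Type) [PartialOrder P] [LocallyFiniteOrder P] [DecidableEq P] [Fintype P]
variable (W : Type) [AddCommGroup W] [Module 𝕜 W]

/-- the functions `P → W`, a module over the incidence algebra -/
def FW : Type := P → W

instance : AddCommGroup (FW P W) := Pi.addCommGroup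

instance : Module 𝕜 (FW P W) := Pi.module _ _ _

instance : Module (IA 𝕜 P) (FW P W) where
  smul a f := fun y => ∑ z, a y z • f z
  one_smul f := by
    funext y
    show ∑ z, (1 : IA 𝕜 P) y z • f z = f y
    rw [Finset.sum_eq_single y]
    · rw [IncidenceAlgebra.one_apply, if_pos rfl, one_smul]
    · intro z _ hz
      rw [IncidenceAlgebra.one_apply, if_neg hz.symm, zero_smul]
    · intro h
      exact absurd (Finset.mem_univ _) h
  mul_smul a b f := by
    funext y
    show ∑ z, (a * b) y z • f z = ∑ w, a y w • ∑ z, b w z • f z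
    simp_rw [ia_mul_apply, Finset.sum_smul, Finset.smul_sum, mul_smul]
    exact Finset.sum_comm
  smul_zero a := by
    funext y
    show ∑ z, a y z • (0 : W) = 0
    simp
  smul_add a f g := by
    funext y
    show ∑ z, a y z • (f z + g z) = (∑ z, a y z • f z) + ∑ z, a y z • g z
    simp_rw [smul_add, Finset.sum_add_distrib]
  add_smul a b f := by
    funext y
    show ∑ z, (a y z + b y z) • f z = (∑ z, a y z • f z) + ∑ z, b y z • f z
    simp_rw [add_smul, Finset.sum_add_distrib]
  zero_smul f := by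
    funext y
    show ∑ z, (0 : 𝕜) • f z = 0
    simp

theorem fw_smul_apply (a : IA 𝕜 P) (f : FW P W) (y : P) : (a • f) y = ∑ z, a y z • f z := rfl

instance : IsScalarTower 𝕜 (IA 𝕜 P) (FW P W) where
  smul_assoc c a f := by
    funext y
    show ∑ z, (c * a y z) • f z = c • ∑ z, a y z • f z
    simp_rw [Finset.smul_sum, mul_smul]

variable {P}

variable (𝕜) in
/-- the functions supported on a down-set -/
def FD (D : Set P) (hD : IsLowerSet D) : Submodule (IA 𝕜 P) (FW P W) where
  carrier := {f | ∀ y, y ∉ D → f y = 0}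
  add_mem' {f g} hf hg y hy := by
    show f y + g y = 0
    rw [hf y hy, hg y hy, add_zero]
  zero_mem' _ _ := rfl
  smul_mem' a f hf y hy := by
    rw [fw_smul_apply]
    refine Finset.sum_eq_zero fun z _ => ?_
    by_cases h : y ≤ z
    · rw [hf z (fun hz => hy (hD h hz)), smul_zero]
    · rw [IncidenceAlgebra.apply_eq_zero_of_not_le h, zero_smul]

theorem fd_apply_zero {D : Set P} {hD : IsLowerSet D} (f : FD 𝕜 W D hD) {y : P} (hy : y ∉ D) :
    f.1 y = 0 := f.2 y hy

variable {W}

variable (𝕜) in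
open Classical in
/-- the function `w` at `x` and `0` elsewhere -/
noncomputable def dl {D : Set P} (hD : IsLowerSet D) (x : P) (hx : x ∈ D) (w : W) : FD 𝕜 W D hD :=
  ⟨fun y => if y = x then w else 0, fun y hy => if_neg (fun h : y = x => hy (by rw [h]; exact hx))⟩

open Classical in
theorem dl_apply {D : Set P} (hD : IsLowerSet D) (x : P) (hx : x ∈ D) (w : W) (y : P) :
    (dl 𝕜 hD x hx w).1 y = if y = x then w else 0 := rfl

/-- `dl` as a linear map -/
noncomputable def dll {D : Set P} (hD : IsLowerSet D) (x : P) (hx : x ∈ D) : W →ₗ[𝕜] FD 𝕜 W D hD where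
  toFun := dl 𝕜 hD x hx
  map_add' w w' := by
    apply Subtype.ext
    funext y
    show (dl 𝕜 hD x hx (w + w')).1 y = (dl 𝕜 hD x hx w).1 y + (dl 𝕜 hD x hx w').1 y
    rw [dl_apply, dl_apply, dl_apply]
    split_ifs
    · rfl
    · rw [add_zero]
  map_smul' c w := by
    apply Subtype.ext
    funext y
    show (dl 𝕜 hD x hx (c • w)).1 y = c • (dl 𝕜 hD x hx w).1 y
    rw [dl_apply, dl_apply]
    split_ifs
    · rfl
    · rw [smul_zero]

open Classical in
theorem E_smul_dl {D : Set P} (hD : IsLowerSet D) (x : P) (hx : x ∈ D) (w : W) (y z : P) :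
    ((E 𝕜 y x • dl 𝕜 hD x hx w : FD 𝕜 W D hD)).1 z = if z = y ∧ y ≤ x then w else 0 := by
  show ∑ u, (E 𝕜 y x) z u • (dl 𝕜 hD x hx w).1 u = _
  rw [Finset.sum_eq_single x]
  · rw [dl_apply, if_pos rfl, E_apply]
    by_cases h : z = y ∧ y ≤ x
    · rw [if_pos ⟨h.1, rfl, h.2⟩, if_pos h, one_smul]
    · rw [if_neg (fun h' => h ⟨h'.1, h'.2.2⟩), if_neg h, zero_smul]
  · intro u _ hu
    rw [dl_apply, if_neg hu, smul_zero]
  · intro h
    exact absurd (Finset.mem_univ _) h

theorem fd_Iic_projective (x : P) :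
    Module.Projective (IA 𝕜 P) (FD 𝕜 W (Set.Iic x) (isLowerSet_Iic x)) := by
  refine Module.Projective.of_lifting_property'' fun e he => ?_
  obtain ⟨φ, hφ⟩ := Module.projective_lifting_property (e.restrictScalars 𝕜)
    (dll (𝕜 := 𝕜) (W := W) (isLowerSet_Iic x) x le_rfl) he
  have hφ' : ∀ w, e (φ w) = dl 𝕜 (isLowerSet_Iic x) x le_rfl w := fun w => LinearMap.congr_fun hφ w
  refine ⟨{ toFun := fun f => ∑ y, E 𝕜 y x • φ (f.1 y), map_add' := ?_, map_smul' := ?_ }, ?_⟩
  · intro f g
    have : ∀ y, (f + g).1 y = f.1 y + g.1 y := fun y => rfl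
    simp_rw [this, map_add, smul_add, Finset.sum_add_distrib]
  · intro a f
    have h1 : ∀ y, (a • f).1 y = ∑ z, a y z • f.1 z := fun y => rfl
    simp_rw [h1, map_sum, map_smul, RingHom.id_apply, Finset.smul_sum]
    rw [Finset.sum_comm]
    refine Finset.sum_congr rfl fun z _ => ?_
    by_cases hz : z ≤ x
    · rw [← mul_smul, mul_E a z x hz, Finset.sum_smul]
      refine Finset.sum_congr rfl fun y _ => ?_
      rw [smul_assoc, smul_comm]
    · rw [fd_apply_zero W f (show z ∉ Set.Iic x from hz), map_zero]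
      simp
  · apply LinearMap.ext
    intro f
    show e (∑ y, E 𝕜 y x • φ (f.1 y)) = f
    rw [map_sum]
    simp_rw [map_smul, hφ']
    apply Subtype.ext
    funext z
    have h2 : ∀ (s : Finset P) (F : P → FD 𝕜 W (Set.Iic x) (isLowerSet_Iic x)),
        (∑ y ∈ s, F y).1 z = ∑ y ∈ s, (F y).1 z := by
      intro s F
      induction s using Finset.induction with
      | empty => rfl
      | insert i s hi ih => rw [Finset.sum_insert hi, Finset.sum_insert hi, ← ih]; rfl
    rw [h2]
    simp_rw [E_smul_dl]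
    rw [Finset.sum_eq_single z]
    · by_cases hz : z ≤ x
      · rw [if_pos ⟨rfl, hz⟩]
      · rw [if_neg (fun h => hz h.2), fd_apply_zero W f (show z ∉ Set.Iic x from hz)]
    · intro y _ hy
      rw [if_neg (fun h => hy h.1.symm)]
    · intro h
      exact absurd (Finset.mem_univ _) h

end FW

end H68IC
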