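import Pool.Agent.H68.IC.Grp
import Pool.Agent.H68.IC.Lower

/-!
The affine group of the field with eight elements: the incidence algebra has global dimension at
most two and the category of rational coefficient systems has global dimension at least three.
-/

open CategoryTheory

set_option linter.unusedSectionVars false

namespace H68IC

section Main

variable {K : Type} [Field K] [Finite K] [Algebra (ZMod 2) K] (hK : Nat.card K = 8)

theorem a_of_subConj {H : Subgroup (Aff K)} {W : AddSubgroup K} (h : SubConj H (vsub W)) :
    ∀ x ∈ H, x.a = 1 := by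
  rw [subConj_iff] at h
  obtain ⟨g, hg⟩ := h
  intro x hx
  have h1 : g.a⁻¹ * x.a * g.a = 1 := (hg x hx).1
  rw [mul_comm g.a⁻¹ x.a, mul_assoc, inv_mul_cancel, mul_one] at h1
  exact h1

include hK

theorem vsub_subConj {W W' : AddSubgroup K} (h : Nat.card W ≤ Nat.card W') :
    SubConj (vsub W) (vsub W') := by
  obtain ⟨c, hc⟩ := add_conj hK W W' h
  rw [subConj_iff]
  refine ⟨⟨c⁻¹, 0⟩, ?_⟩
  rintro x ⟨hx1, hx2⟩
  have hx : x = ⟨1, x.b⟩ := Aff.ext hx1 rfl
  rw [hx, conj_tr]
  refine ⟨rfl, ?_⟩
  show (((c⁻¹)⁻¹ : Kˣ) : K) * x.b ∈ W'
  rw [inv_inv]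
  exact hc _ hx2

theorem exists_half (W : AddSubgroup K) (hW : Nat.card W ≠ 1) :
    ∃ W₁ : AddSubgroup K, 2 * Nat.card W₁ = Nat.card W := by
  rcases card_cases hK W with h | h | h | h
  · exact absurd h hW
  · exact ⟨⊥, by rw [AddSubgroup.card_bot, h]⟩
  · refine ⟨AddSubgroup.zmultiples 1, ?_⟩
    rw [Nat.card_zmultiples, h]
    have h2 : addOrderOf (1 : K) = 2 := by
      refine addOrderOf_eq_prime ?_ one_ne_zero
      have : ((2 : ZMod 2) • (1 : K)) = 0 := by
        rw [show (2 : ZMod 2) = 0 from rfl, zero_smul]
      rw [two_smul] at this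
      rw [two_nsmul]
      exact this
    rw [h2]
  · have hpos : 0 < Module.finrank (ZMod 2) K := by rw [finrank_eq hK]; norm_num
    obtain ⟨f, hf⟩ : ∃ f : Module.Dual (ZMod 2) K, f ≠ 0 := by
      obtain ⟨f, hf, _⟩ := exists_functional hK ⊥ (by
        intro h0
        have : Nat.card (⊥ : AddSubgroup K) = Nat.card (⊤ : AddSubgroup K) := by rw [h0]
        rw [AddSubgroup.card_bot, AddSubgroup.card_top, hK] at this
        omega)
      exact ⟨f, hf⟩
    refine ⟨(LinearMap.ker f).toAddSubgroup, ?_⟩
    have h1 := Module.Dual.finrank_ker_add_one_of_ne_zero hf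
    rw [finrank_eq hK] at h1
    have h2 := Module.natCard_eq_pow_finrank (K := ZMod 2) (V := LinearMap.ker f)
    have h3 : Module.finrank (ZMod 2) (LinearMap.ker f) = 2 := by omega
    rw [h3, Nat.card_zmod] at h2
    have h4 : Nat.card (LinearMap.ker f).toAddSubgroup = 4 := h2
    rw [h4, h]

theorem card_aff : Nat.card (Aff K) = 56 := by
  have e : Aff K ≃ Kˣ × K := ⟨fun x => (x.a, x.b), fun x => ⟨x.1, x.2⟩, fun _ => rfl, fun _ => rfl⟩
  rw [Nat.card_congr e, Nat.card_prod, card_units hK, hK]

theorem card_half {m n : ℕ} (hm : m = 1 ∨ m = 2 ∨ m = 4 ∨ m = 8)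
    (hn : n = 1 ∨ n = 2 ∨ n = 4 ∨ n = 8) (h : m < n) : 2 * m ≤ n := by
  omega

theorem good_aff : Good (SubCl (Aff K)) := by
  intro x
  induction x using Quotient.inductionOn with
  | h H =>
    change Set.Iio (SubCl.mk H) = ∅ ∨ (∃ x', Set.Iio (SubCl.mk H) = Set.Iic x') ∨
      ∃ v c b, Set.Iio (SubCl.mk H) = Set.Iic v ∪ Set.Iic c ∧ Set.Iic v ∩ Set.Iic c = Set.Iic b
    by_cases h : ∃ x ∈ H, x.a ≠ 1
    · rcases classify hK H h with rfl | ⟨h1, h2⟩
      · right; right
        refine ⟨SubCl.mk (vsub ⊤), SubCl.mk hsub, SubCl.mk ⊥, ?_, ?_⟩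
        · ext y
          induction y using Quotient.inductionOn with
          | h L =>
            change SubCl.mk L < SubCl.mk ⊤ ↔ SubCl.mk L ≤ SubCl.mk (vsub ⊤) ∨
              SubCl.mk L ≤ SubCl.mk hsub
            rw [mk_lt_mk, SubCl.mk_le_mk, SubCl.mk_le_mk]
            constructor
            · rintro ⟨_, h4⟩
              by_cases h5 : ∃ x ∈ L, x.a ≠ 1
              · rcases classify hK L h5 with h6 | h6
                · rw [h6] at h4
                  exact absurd h4 (lt_irrefl _)
                · exact Or.inr h6.1
              · push Not at h5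
                exact Or.inl (SubConj.of_le (fun x hx => ⟨h5 x hx, trivial⟩))
            · intro h3
              refine ⟨SubConj.of_le le_top, ?_⟩
              rw [Subgroup.card_top, card_aff hK]
              rcases h3 with h3 | h3
              · have := Nat.le_of_dvd Nat.card_pos h3.card_dvd
                rw [card_vsub, AddSubgroup.card_top, hK] at this
                omega
              · have := Nat.le_of_dvd Nat.card_pos h3.card_dvd
                rw [card_hsub, card_units hK] at this
                omega
        · ext y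
          induction y using Quotient.inductionOn with
          | h L =>
            change (SubCl.mk L ≤ SubCl.mk (vsub ⊤) ∧ SubCl.mk L ≤ SubCl.mk hsub) ↔
              SubCl.mk L ≤ SubCl.mk ⊥
            rw [SubCl.mk_le_mk, SubCl.mk_le_mk, SubCl.mk_le_mk]
            constructor
            · rintro ⟨h3, h4⟩
              have h5 := h3.card_dvd
              have h6 := h4.card_dvd
              rw [card_vsub, AddSubgroup.card_top, hK] at h5
              rw [card_hsub, card_units hK] at h6
              have h7 : Nat.card L ∣ Nat.gcd 8 7 := Nat.dvd_gcd h5 h6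
              have h8 : Nat.card L = 1 := Nat.dvd_one.1 (by simpa using h7)
              rw [Subgroup.card_eq_one] at h8
              rw [h8]
              exact SubConj.refl _
            · intro h3
              exact ⟨h3.trans (SubConj.bot _), h3.trans (SubConj.bot _)⟩
      · right; left
        refine ⟨SubCl.mk ⊥, ?_⟩
        ext y
        induction y using Quotient.inductionOn with
        | h L =>
          change SubCl.mk L < SubCl.mk H ↔ SubCl.mk L ≤ SubCl.mk ⊥
          rw [mk_lt_mk, SubCl.mk_le_mk, h2]
          constructor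
          · rintro ⟨h3, h4⟩
            have h5 := h3.card_dvd
            rw [h2] at h5
            have h8 : Nat.card L = 1 := by
              rcases (Nat.dvd_prime (by norm_num : Nat.Prime 7)).1 h5 with h6 | h6
              · exact h6
              · omega
            rw [Subgroup.card_eq_one] at h8
            rw [h8]
            exact SubConj.refl _
          · intro h3
            refine ⟨h3.trans (SubConj.bot _), ?_⟩
            have := Nat.le_of_dvd Nat.card_pos h3.card_dvd
            rw [Subgroup.card_bot] at this
            omega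
    · push Not at h
      have hH := eq_vsub h
      set W := tpart H with hW
      have hcard : Nat.card H = Nat.card W := by rw [hH, card_vsub]
      by_cases h1 : Nat.card W = 1
      · left
        rw [Set.eq_empty_iff_forall_notMem]
        intro y
        induction y using Quotient.inductionOn with
        | h L =>
          change ¬ SubCl.mk L < SubCl.mk H
          rw [mk_lt_mk, hcard, h1]
          rintro ⟨_, h3⟩
          have : 0 < Nat.card L := Nat.card_pos
          omega
      · right; left
        obtain ⟨W₁, hW₁⟩ := exists_half hK W h1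
        refine ⟨SubCl.mk (vsub W₁), ?_⟩
        ext y
        induction y using Quotient.inductionOn with
        | h L =>
          change SubCl.mk L < SubCl.mk H ↔ SubCl.mk L ≤ SubCl.mk (vsub W₁)
          rw [mk_lt_mk, SubCl.mk_le_mk, hcard]
          constructor
          · rintro ⟨h3, h4⟩
            rw [hH] at h3
            have h5 := eq_vsub (a_of_subConj h3)
            rw [h5] at h4 ⊢
            rw [card_vsub] at h4
            refine vsub_subConj hK ?_
            have h6 := card_half hK (card_cases hK _) (card_cases hK W) h4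
            omega
          · intro h3
            have h4 := Nat.le_of_dvd Nat.card_pos h3.card_dvd
            rw [card_vsub] at h4
            have h5 : 0 < Nat.card W₁ := Nat.card_pos
            refine ⟨?_, by omega⟩
            rw [hH]
            exact h3.trans (vsub_subConj hK (by omega))

theorem gldim_ge (𝕜 : Type) [Field 𝕜] : (3 : WithBot ℕ∞) ≤ gldim (Coef 𝕜 (Aff K)) := by
  let b := Module.finBasisOfFinrankEq (ZMod 2) K (finrank_eq hK)
  let T : Finset (Aff K) := Finset.univ.map ⟨fun i : Fin 3 => (⟨1, b i⟩ : Aff K), fun i j hij =>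
    b.injective (congrArg Aff.b hij)⟩
  have hT : T.card = 3 := by rw [Finset.card_map, Finset.card_univ, Fintype.card_fin]
  have key := gldim_coef_ge 𝕜 T (by
    intro A hA hcl
    obtain ⟨x, hxT, hxA⟩ := Finset.exists_of_ssubset hA
    obtain ⟨i, _, rfl⟩ := Finset.mem_map.1 hxT
    have h1 : Subgroup.closure (A : Set (Aff K)) ≤
        vsub (LinearMap.ker (b.coord i)).toAddSubgroup := by
      rw [Subgroup.closure_le]
      intro y hy
      obtain ⟨j, _, rfl⟩ := Finset.mem_map.1 (hA.subset hy)
      refine ⟨rfl, ?_⟩
      show b.coord i (b j) = 0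
      rw [Module.Basis.coord_apply, Module.Basis.repr_self, Finsupp.single_apply, if_neg]
      rintro rfl
      exact hxA hy
    rw [hcl] at h1
    have h2 := (h1 (Subgroup.subset_closure hxT)).2
    have h3 : b.coord i (b i) = 0 := h2
    rw [Module.Basis.coord_apply, Module.Basis.repr_self, Finsupp.single_apply, if_pos rfl] at h3
    exact one_ne_zero h3)
  rw [hT] at key
  exact_mod_cast key

theorem gldim_le (𝕜 : Type) [Field 𝕜] : gldim (ModuleCat.{0} (IncidenceAlgebra 𝕜 (SubCl (Aff K)))) ≤ 2 := by
  have : Fintype (SubCl (Aff K)) := Fintype.ofFinite _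
  exact gldim_ia_le (good_aff hK)

end Main

end H68IC
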